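import Pool.Agent.H11.CV.Defs

/-!
# A coherent estimate for the `p`-adic light cone: definitions (helper39)

`G` is a finite abelian group with three marked elements `u0, u1, u2`. For a character `χ` with
`χ u0 = e(x / p^L)`, `χ u1 = e(y / p^L)`, `χ u2 = e(z / p^L)` the integers `x, y, z` modulo `p^L`
are its frequency. The class `Kc p L k u0 u1 u2 ε s` consists of the functions whose frequencies
satisfy `x ≡ ε (p)`, `y ≡ s x (p^k)`, `z - 2 s y + s^2 x ≡ 0 (p^(2 k))`: a plank of the light cone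
`x z = y^2`.
-/

set_option autoImplicit false

open Finset

namespace Pool.Agent.H39.VQ

open Pool.Agent.H11.CV

/-- plank of level `k`, radial class `ε`, angular class `s` -/
def Pl (p k : ℕ) (ε s x y z : ℤ) : Prop :=
  (p : ℤ) ∣ x - ε ∧ (p : ℤ) ^ k ∣ y - s * x ∧ (p : ℤ) ^ (2 * k) ∣ z - 2 * s * y + s ^ 2 * x

/-- differences of frequencies of two planks whose classes have distance exactly `p^(-j)`,
`t` is any element of the common class of level `j` -/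
def Dp (p j : ℕ) (t x y z : ℤ) : Prop :=
  (p : ℤ) ∣ x ∧ (p : ℤ) ^ j ∣ y - t * x ∧ ¬ (p : ℤ) ^ (j + 1) ∣ y - t * x ∧
    (p : ℤ) ^ (2 * j) ∣ z - 2 * t * y + t ^ 2 * x

/-- the exponent of the first coordinate -/
def ex (j l : ℕ) : ℕ := max 1 (2 * (j - l))

/-- the intersection of the planks (centred at `0`) of level `j` over the class of `c` of
level `l ≤ j` -/
def Us (p j l : ℕ) (c x y z : ℤ) : Prop :=
  (p : ℤ) ^ (ex j l) ∣ x ∧ (p : ℤ) ^ (2 * j - l) ∣ y - c * x ∧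
    (p : ℤ) ^ (2 * j) ∣ z - 2 * c * y + c ^ 2 * x

/-- the levels `k - (F_(m+2) - 1)`: `k, k - 1, k - 2, k - 4, k - 7, k - 12, …` -/
def lv (k m : ℕ) : ℕ := k - (Nat.fib (m + 2) - 1)

section
variable {G : Type} [AddCommGroup G]

/-- functions with frequencies in the plank `Pl p k ε s` -/
def Kc (p L k : ℕ) (u0 u1 u2 : G) (ε s : ℤ) (h : G → ℂ) : Prop :=
  (∀ g, h (g + p ^ (L - 1) • u0) = ee p ε * h g) ∧
  (∀ g, h (g + p ^ (L - k) • (u1 - s • u0)) = h g) ∧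
  (∀ g, h (g + p ^ (L - 2 * k) • (u2 - (2 * s) • u1 + s ^ 2 • u0)) = h g)

/-- real functions with the invariance of the absolute values of the functions in `Kc` -/
def Iv (p L k : ℕ) (u0 u1 u2 : G) (s : ℤ) (w : G → ℝ) : Prop :=
  (∀ g, w (g + p ^ (L - 1) • u0) = w g) ∧
  (∀ g, w (g + p ^ (L - k) • (u1 - s • u0)) = w g) ∧
  (∀ g, w (g + p ^ (L - 2 * k) • (u2 - (2 * s) • u1 + s ^ 2 • u0)) = w g)

/-- the integers `x, y, z` are a frequency of the character `χ` -/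
def Fr (p L : ℕ) (u0 u1 u2 : G) (χ : AddChar G ℂ) (x y z : ℤ) : Prop :=
  χ u0 = ee (p ^ L) x ∧ χ u1 = ee (p ^ L) y ∧ χ u2 = ee (p ^ L) z

/-- average over the translates by `0, u, …, (M - 1) u` -/
noncomputable def am {K : Type} [Field K] (M : ℕ) (u : G) (f : G → K) (g : G) : K :=
  (M : K)⁻¹ * ∑ t ∈ range M, f (g + t • u)

/-- projection to the frequencies in `Us p j l c` -/
noncomputable def AA {K : Type} [Field K] (p L j l : ℕ) (u0 u1 u2 : G) (c : ℤ) (f : G → K) :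
    G → K :=
  am (p ^ (ex j l)) (p ^ (L - ex j l) • u0)
    (am (p ^ (2 * j - l)) (p ^ (L - (2 * j - l)) • (u1 - c • u0))
      (am (p ^ (2 * j)) (p ^ (L - 2 * j) • (u2 - (2 * c) • u1 + c ^ 2 • u0)) f))

/-- off-diagonal part of the node `c` of level `j` of a family indexed by level `j + 1` -/
noncomputable def dd (p j : ℕ) (f : ℕ → G → ℂ) (c : ℕ) (g : G) : ℝ :=
  ‖∑ i ∈ range p, f (c + p ^ j * i) g‖ ^ 2 - ∑ i ∈ range p, ‖f (c + p ^ j * i) g‖ ^ 2

/-- nested counts: `cn m ξ` is the sum of the `cn (m - 1)` over the children of `ξ` of level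
`lv k (m - 1)`, cut to the points where it lies in `[lam m, 2 lam m)` -/
noncomputable def cn (p k : ℕ) (lam : ℕ → ℝ) (w : ℕ → G → ℝ) : ℕ → ℕ → G → ℝ
  | 0 => fun ξ g => if lam 0 ≤ w ξ g ∧ w ξ g < 2 * lam 0 then w ξ g else 0
  | m + 1 => fun ξ g =>
      if lam (m + 1) ≤ ∑ z ∈ range (p ^ (lv k m - lv k (m + 1))),
            cn p k lam w m (ξ + p ^ (lv k (m + 1)) * z) g ∧
          ∑ z ∈ range (p ^ (lv k m - lv k (m + 1))),
            cn p k lam w m (ξ + p ^ (lv k (m + 1)) * z) g < 2 * lam (m + 1)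
      then ∑ z ∈ range (p ^ (lv k m - lv k (m + 1))),
            cn p k lam w m (ξ + p ^ (lv k (m + 1)) * z) g
      else 0

/-- nested sums: the sums of the functions `δ` with the cutoffs of `cn` -/
noncomputable def hn (p k : ℕ) (lam : ℕ → ℝ) (w : ℕ → G → ℝ) (δ : ℕ → G → ℂ) : ℕ → ℕ → G → ℂ
  | 0 => fun ξ g => if lam 0 ≤ w ξ g ∧ w ξ g < 2 * lam 0 then δ ξ g else 0
  | m + 1 => fun ξ g =>
      if lam (m + 1) ≤ ∑ z ∈ range (p ^ (lv k m - lv k (m + 1))),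
            cn p k lam w m (ξ + p ^ (lv k (m + 1)) * z) g ∧
          ∑ z ∈ range (p ^ (lv k m - lv k (m + 1))),
            cn p k lam w m (ξ + p ^ (lv k (m + 1)) * z) g < 2 * lam (m + 1)
      then ∑ z ∈ range (p ^ (lv k m - lv k (m + 1))),
            hn p k lam w δ m (ξ + p ^ (lv k (m + 1)) * z) g
      else 0

/-- the points where the node `ξ` of height `m` is active and coherent -/
def Oh (p k : ℕ) (lam : ℕ → ℝ) (w : ℕ → G → ℝ) (δ : ℕ → G → ℂ) (m ξ : ℕ) (θ : ℝ) : Set G :=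
  {g | cn p k lam w m ξ g ≠ 0 ∧ θ * cn p k lam w m ξ g ≤ ‖hn p k lam w δ m ξ g‖}

/-- a system of plank functions `δ` dominated by invariant weights `w` -/
structure Sys (p L k : ℕ) (u0 u1 u2 : G) (ε : ℤ) (w : ℕ → G → ℝ) (δ : ℕ → G → ℂ) : Prop where
  prime : p.Prime
  odd : p ≠ 2
  one_le : 1 ≤ L
  two_le : 2 * k ≤ L
  unit : ¬ (p : ℤ) ∣ ε
  cls : ∀ s : ℕ, s < p ^ k → Kc p L k u0 u1 u2 ε (s : ℤ) (δ s)
  inv : ∀ s : ℕ, s < p ^ k → Iv p L k u0 u1 u2 (s : ℤ) (w s)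
  nonneg : ∀ (s : ℕ) (g : G), s < p ^ k → 0 ≤ w s g
  le : ∀ (s : ℕ) (g : G), s < p ^ k → ‖δ s g‖ ≤ w s g

variable [Fintype G]

/-- Fourier coefficients -/
noncomputable def ft (f : G → ℂ) (χ : AddChar G ℂ) : ℂ := ∑ g, (starRingEnd ℂ) (χ g) * f g

end

end Pool.Agent.H39.VQ
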