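import Pool.Agent.H11.CV.Targets
import Pool.Agent.H39.VQ.Defs

/-!
# A coherent estimate for the `p`-adic light cone and Vinogradov mean values: targets (helper39)

Every `V_XX` is a proposition to be proved in a module of its own. See `Defs.lean`.
-/

set_option autoImplicit false

open Finset Polynomial

namespace Pool.Agent.H39.VQ

open Pool.Agent.H11.CV

/-- FT: Fourier analysis on a finite abelian group. -/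
def V_FT : Prop :=
  ∀ (G : Type) [AddCommGroup G] [Fintype G],
    (∀ f f' : G → ℂ, ∑ g, f g * (starRingEnd ℂ) (f' g) =
      (Fintype.card G : ℂ)⁻¹ * ∑ χ : AddChar G ℂ, ft f χ * (starRingEnd ℂ) (ft f' χ)) ∧
    (∀ f : G → ℂ, ∑ g, ‖f g‖ ^ 2 =
      (Fintype.card G : ℝ)⁻¹ * ∑ χ : AddChar G ℂ, ‖ft f χ‖ ^ 2) ∧
    (∀ f : G → ℂ, (∀ χ : AddChar G ℂ, ft f χ = 0) → ∀ g, f g = 0) ∧
    (∀ (f : G → ℂ) (u : G) (χ : AddChar G ℂ), ft (fun g => f (g + u)) χ = χ u * ft f χ) ∧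
    (∀ (ι : Type) (s : Finset ι) (f : ι → G → ℂ) (χ : AddChar G ℂ),
      ft (fun g => ∑ i ∈ s, f i g) χ = ∑ i ∈ s, ft (f i) χ) ∧
    (∀ (f f' : G → ℂ) (χ : AddChar G ℂ), ft (fun g => f g * (starRingEnd ℂ) (f' g)) χ ≠ 0 →
      ∃ ψ : AddChar G ℂ, ft f (χ * ψ) ≠ 0 ∧ ft f' ψ ≠ 0)

/-- FR: frequencies of the functions in `Kc`. -/
def V_FR : Prop :=
  ∀ (p L k : ℕ) (ε s : ℤ) (G : Type) [AddCommGroup G] [Fintype G] (u0 u1 u2 : G) (h : G → ℂ),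
    1 < p → 1 ≤ L → 2 * k ≤ L → Kc p L k u0 u1 u2 ε s h → ∀ χ : AddChar G ℂ, ft h χ ≠ 0 →
      (∃ x y z : ℤ, Fr p L u0 u1 u2 χ x y z) ∧
      ∀ x y z : ℤ, Fr p L u0 u1 u2 χ x y z → Pl p k ε s x y z

/-- FP: frequencies of `h conj h'`. -/
def V_FP : Prop :=
  ∀ (p L k k' : ℕ) (ε ε' s s' : ℤ) (G : Type) [AddCommGroup G] [Fintype G] (u0 u1 u2 : G)
    (h h' : G → ℂ), 1 < p → 1 ≤ L → 2 * k ≤ L → 2 * k' ≤ L → Kc p L k u0 u1 u2 ε s h →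
    Kc p L k' u0 u1 u2 ε' s' h' → ∀ χ : AddChar G ℂ,
      ft (fun g => h g * (starRingEnd ℂ) (h' g)) χ ≠ 0 →
        (∃ x y z : ℤ, Fr p L u0 u1 u2 χ x y z) ∧
        ∀ x y z : ℤ, Fr p L u0 u1 u2 χ x y z → ∃ x' y' z' : ℤ, Pl p k' ε' s' x' y' z' ∧
          Pl p k ε s (x + x') (y + y') (z + z')

/-- N1: differences of points of two planks in distinct directions. -/
def V_N1 : Prop :=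
  ∀ (p k j : ℕ) (ε s s' x y z x' y' z' : ℤ), p.Prime → ¬ (p : ℤ) ∣ ε → j < k →
    (p : ℤ) ^ j ∣ s - s' → ¬ (p : ℤ) ^ (j + 1) ∣ s - s' → Pl p k ε s' x' y' z' →
    Pl p k ε s (x + x') (y + y') (z + z') → ∀ t : ℤ, (p : ℤ) ^ j ∣ t - s → Dp p j t x y z

/-- N2: the quadratic form; planks centred at `0`. -/
def V_N2 : Prop :=
  (∀ (p k : ℕ) (ε s x y z x' y' z' : ℤ), Pl p k ε s x' y' z' →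
    Pl p k ε s (x + x') (y + y') (z + z') → Pl p k 0 s x y z) ∧
  (∀ (p k : ℕ) (s x y z : ℤ), Pl p k 0 s x y z → (p : ℤ) ^ (2 * k) ∣ x * z - y ^ 2) ∧
  (∀ (p j : ℕ) (t x y z : ℤ), p.Prime → Dp p j t x y z →
    ¬ (p : ℤ) ^ (2 * j + 1) ∣ x * z - y ^ 2) ∧
  (∀ (p j : ℕ) (t t' x y z : ℤ), (p : ℤ) ^ j ∣ t' - t → Dp p j t x y z → Dp p j t' x y z) ∧
  (∀ (p k : ℕ) (s x y z : ℤ), Pl p k 0 s x y z ↔ Us p k k s x y z)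

/-- N3: two-fold overlap. -/
def V_N3 : Prop :=
  ∀ (p j : ℕ) (t₁ t₂ t₃ x y z : ℤ), p.Prime → p ≠ 2 → Dp p j t₁ x y z → Dp p j t₂ x y z →
    Dp p j t₃ x y z → (p : ℤ) ^ j ∣ t₁ - t₂ ∨ (p : ℤ) ^ j ∣ t₁ - t₃ ∨ (p : ℤ) ^ j ∣ t₂ - t₃

/-- N4: the equations modulo `p` for four children of a node. -/
def V_N4 : Prop :=
  ∀ (p j : ℕ) (ε t : ℤ) (r x y z : Fin 4 → ℤ), p.Prime → p ≠ 2 → ¬ (p : ℤ) ∣ ε →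
    (∀ i, Pl p (j + 1) ε (t + (p : ℤ) ^ j * r i) (x i) (y i) (z i)) →
    (p : ℤ) ^ (2 * (j + 1)) ∣ x 0 - x 1 - (x 2 - x 3) →
    (p : ℤ) ^ (2 * (j + 1)) ∣ y 0 - y 1 - (y 2 - y 3) →
    (p : ℤ) ^ (2 * (j + 1)) ∣ z 0 - z 1 - (z 2 - z 3) →
      ((p : ℤ) ∣ r 0 - r 2 ∧ (p : ℤ) ∣ r 1 - r 3) ∨ ((p : ℤ) ∣ r 0 - r 1 ∧ (p : ℤ) ∣ r 2 - r 3)

/-- N5: among three planks of level `k` through a point two are in a common full class. -/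
def V_N5 : Prop :=
  ∀ (p k : ℕ) (s₁ s₂ s₃ x y z : ℤ), p.Prime → p ≠ 2 → Pl p k 0 s₁ x y z → Pl p k 0 s₂ x y z →
    Pl p k 0 s₃ x y z → ¬ (p : ℤ) ^ k ∣ s₁ - s₂ → ¬ (p : ℤ) ^ k ∣ s₁ - s₃ →
    ¬ (p : ℤ) ^ k ∣ s₂ - s₃ → ∃ ρ : ℕ, ρ < k ∧
      (((p : ℤ) ^ ρ ∣ s₁ - s₂ ∧ Us p k ρ s₁ x y z) ∨ ((p : ℤ) ^ ρ ∣ s₁ - s₃ ∧ Us p k ρ s₁ x y z) ∨
        ((p : ℤ) ^ ρ ∣ s₂ - s₃ ∧ Us p k ρ s₂ x y z))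

/-- N6: monotonicity of `Us`. -/
def V_N6 : Prop :=
  ∀ (p k l l' : ℕ) (t t' x y z : ℤ), l ≤ l' → l' ≤ k → (p : ℤ) ^ l ∣ t' - t → Us p k l t x y z →
    Us p k l' t' x y z

/-- KM: basic properties of the classes. -/
def V_KM : Prop :=
  ∀ (p L : ℕ) (G : Type) [AddCommGroup G] (u0 u1 u2 : G), 1 < p → 1 ≤ L →
    (∀ (k k' : ℕ) (ε s s' : ℤ) (h : G → ℂ), 2 * k ≤ L → k' ≤ k → (p : ℤ) ^ k' ∣ s' - s →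
      Kc p L k u0 u1 u2 ε s h → Kc p L k' u0 u1 u2 ε s' h) ∧
    (∀ (k k' : ℕ) (s s' : ℤ) (w : G → ℝ), 2 * k ≤ L → k' ≤ k → (p : ℤ) ^ k' ∣ s' - s →
      Iv p L k u0 u1 u2 s w → Iv p L k' u0 u1 u2 s' w) ∧
    (∀ (k : ℕ) (ε s : ℤ) (S : Finset ℕ) (h : ℕ → G → ℂ),
      (∀ i ∈ S, Kc p L k u0 u1 u2 ε s (h i)) →
        Kc p L k u0 u1 u2 ε s (fun g => ∑ i ∈ S, h i g)) ∧
    (∀ (k : ℕ) (s : ℤ) (S : Finset ℕ) (w : ℕ → G → ℝ), (∀ i ∈ S, Iv p L k u0 u1 u2 s (w i)) →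
      Iv p L k u0 u1 u2 s (fun g => ∑ i ∈ S, w i g)) ∧
    (∀ (k : ℕ) (ε s : ℤ) (w : G → ℝ) (h : G → ℂ), Iv p L k u0 u1 u2 s w →
      Kc p L k u0 u1 u2 ε s h → Kc p L k u0 u1 u2 ε s (fun g => (w g : ℂ) * h g)) ∧
    (∀ (k : ℕ) (ε s : ℤ) (h : G → ℂ), Kc p L k u0 u1 u2 ε s h →
      Iv p L k u0 u1 u2 s (fun g => ‖h g‖)) ∧
    (∀ (k : ℕ) (s : ℤ) (φ : ℝ → ℝ → ℝ) (w w' : G → ℝ), Iv p L k u0 u1 u2 s w →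
      Iv p L k u0 u1 u2 s w' → Iv p L k u0 u1 u2 s (fun g => φ (w g) (w' g)))

/-- M1: the `L^4` identity of one node. -/
def V_M1 : Prop :=
  ∀ (p L j : ℕ) (ε t : ℤ) (G : Type) [AddCommGroup G] [Fintype G] (u0 u1 u2 : G)
    (f : ℕ → G → ℂ), p.Prime → p ≠ 2 → 2 * (j + 1) ≤ L → ¬ (p : ℤ) ∣ ε →
    (∀ i : ℕ, i < p → Kc p L (j + 1) u0 u1 u2 ε (t + (p : ℤ) ^ j * i) (f i)) →
      ∑ g, (‖∑ i ∈ range p, f i g‖ ^ 2 - ∑ i ∈ range p, ‖f i g‖ ^ 2) ^ 2 =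
        ∑ g, (∑ i ∈ range p, ‖f i g‖ ^ 2) ^ 2 - ∑ i ∈ range p, ∑ g, ‖f i g‖ ^ 4

/-- M2: orthogonality of consecutive levels. -/
def V_M2 : Prop :=
  ∀ (p L j : ℕ) (ε : ℤ) (C : Finset ℕ) (G : Type) [AddCommGroup G] [Fintype G] (u0 u1 u2 : G)
    (f : ℕ → G → ℂ), p.Prime → p ≠ 2 → 2 * (j + 1) ≤ L → ¬ (p : ℤ) ∣ ε → (∀ c ∈ C, c < p ^ j) →
    (∀ s : ℕ, s < p ^ (j + 1) → Kc p L (j + 1) u0 u1 u2 ε (s : ℤ) (f s)) →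
      ∑ g, (∑ c ∈ C, dd p j f c g) * (∑ c ∈ C, ∑ i ∈ range p, ‖f (c + p ^ j * i) g‖ ^ 2) = 0

/-- M3: almost orthogonality of the off-diagonal parts of one level. -/
def V_M3 : Prop :=
  ∀ (p L j : ℕ) (ε : ℤ) (C : Finset ℕ) (G : Type) [AddCommGroup G] [Fintype G] (u0 u1 u2 : G)
    (f : ℕ → G → ℂ), p.Prime → p ≠ 2 → 2 * (j + 1) ≤ L → ¬ (p : ℤ) ∣ ε → (∀ c ∈ C, c < p ^ j) →
    (∀ s : ℕ, s < p ^ (j + 1) → Kc p L (j + 1) u0 u1 u2 ε (s : ℤ) (f s)) →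
      ∑ g, (∑ c ∈ C, dd p j f c g) ^ 2 ≤ 2 * ∑ c ∈ C, ∑ g, (dd p j f c g) ^ 2

/-- SQ: the square function estimate for the light cone. -/
def V_SQ : Prop :=
  ∀ (p L k : ℕ) (ε : ℤ) (G : Type) [AddCommGroup G] [Fintype G] (u0 u1 u2 : G)
    (f : ℕ → G → ℂ), p.Prime → p ≠ 2 → 1 ≤ L → 2 * k ≤ L → ¬ (p : ℤ) ∣ ε →
    (∀ s : ℕ, s < p ^ k → Kc p L k u0 u1 u2 ε (s : ℤ) (f s)) →
      ∑ g, ‖∑ s ∈ range (p ^ k), f s g‖ ^ 4 ≤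
        (1 + 2 * (k : ℝ)) * ∑ g, (∑ s ∈ range (p ^ k), ‖f s g‖ ^ 2) ^ 2

/-- AV: elementary properties of the averages. -/
def V_AV : Prop :=
  ∀ (p L j l : ℕ) (c : ℤ) (G : Type) [AddCommGroup G] (u0 u1 u2 : G), 1 < p →
    (∀ f f' : G → ℝ, (∀ g, f g ≤ f' g) → ∀ g, AA p L j l u0 u1 u2 c f g ≤
      AA p L j l u0 u1 u2 c f' g) ∧
    (∀ (f : G → ℝ) (B : ℝ), (∀ g, f g ≤ B) → ∀ g, AA p L j l u0 u1 u2 c f g ≤ B) ∧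
    (∀ f : G → ℝ, (∀ g, 0 ≤ f g) → ∀ g, 0 ≤ AA p L j l u0 u1 u2 c f g) ∧
    (∀ (_ : Fintype G) (f : G → ℝ), ∑ g, AA p L j l u0 u1 u2 c f g = ∑ g, f g) ∧
    (∀ (K : Type) [Field K] (S : Finset ℕ) (f : ℕ → G → K) (g : G),
      AA p L j l u0 u1 u2 c (fun g => ∑ i ∈ S, f i g) g =
        ∑ i ∈ S, AA p L j l u0 u1 u2 c (f i) g) ∧
    (∀ (f : G → ℝ) (g : G), AA p L j l u0 u1 u2 c (fun g => ((f g : ℝ) : ℂ)) g =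
      ((AA p L j l u0 u1 u2 c f g : ℝ) : ℂ))

/-- AF: the Fourier multiplier of the averages. -/
def V_AF : Prop :=
  ∀ (p L j l : ℕ) (c x y z : ℤ) (G : Type) [AddCommGroup G] [Fintype G] (u0 u1 u2 : G)
    (f : G → ℂ) (χ : AddChar G ℂ), 1 < p → 1 ≤ L → 2 * j ≤ L → l ≤ j →
    Fr p L u0 u1 u2 χ x y z →
      (Us p j l c x y z → ft (AA p L j l u0 u1 u2 c f) χ = ft f χ) ∧
      (¬ Us p j l c x y z → ft (AA p L j l u0 u1 u2 c f) χ = 0)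

/-- LO: local orthogonality. -/
def V_LO : Prop :=
  ∀ (p L j l b : ℕ) (ε c : ℤ) (S : Finset ℕ) (G : Type) [AddCommGroup G] [Fintype G]
    (u0 u1 u2 : G) (f : ℕ → G → ℂ), p.Prime → 1 ≤ L → 2 * j ≤ L → 2 * b ≤ L → l ≤ j →
    b ≤ 2 * j - l → ¬ (p : ℤ) ∣ ε → (∀ s ∈ S, Kc p L b u0 u1 u2 ε (s : ℤ) (f s)) →
    (∀ s ∈ S, (p : ℤ) ^ l ∣ (s : ℤ) - c) →
    (∀ s ∈ S, ∀ s' ∈ S, s ≠ s' → ¬ (p : ℤ) ^ b ∣ (s : ℤ) - (s' : ℤ)) →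
      ∀ g, AA p L j l u0 u1 u2 c (fun g => ‖∑ s ∈ S, f s g‖ ^ 2) g =
        AA p L j l u0 u1 u2 c (fun g => ∑ s ∈ S, ‖f s g‖ ^ 2) g

/-- WE: the `L^2` norm of the square function and local masses. -/
def V_WE : Prop :=
  ∀ (p L j a c₀ : ℕ) (ε : ℤ) (G : Type) [AddCommGroup G] [Fintype G] (u0 u1 u2 : G)
    (f : ℕ → G → ℂ), p.Prime → p ≠ 2 → 1 ≤ L → 2 * j ≤ L → a ≤ j → c₀ < p ^ a →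
    (∀ s : ℕ, s < p ^ j → Kc p L j u0 u1 u2 ε (s : ℤ) (f s)) →
      ∑ g, (∑ z ∈ range (p ^ (j - a)), ‖f (c₀ + p ^ a * z) g‖ ^ 2) ^ 2 ≤
        2 * ∑ l ∈ Icc a j, ∑ y ∈ range (p ^ (l - a)), ∑ g,
          (AA p L j l u0 u1 u2 ((c₀ + p ^ a * y : ℕ) : ℤ)
            (fun g => ∑ z ∈ range (p ^ (j - l)), ‖f (c₀ + p ^ a * y + p ^ l * z) g‖ ^ 2) g) ^ 2

/-- LV: the levels. -/
def V_LV : Prop :=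
  ∀ k : ℕ, lv k 0 = k ∧ (∀ m m' : ℕ, m ≤ m' → lv k m' ≤ lv k m) ∧ (∀ m : ℕ, lv k m ≤ k) ∧
    lv k 0 ≤ lv k 1 + 1 ∧
    (∀ m : ℕ, 1 ≤ m → 2 * lv k m ≤ lv k (m - 2) + lv k (m + 1)) ∧
    ∀ M : ℕ, 2 * Nat.log 2 (k + 1) + 4 ≤ M → lv k M = 0

/-- TY: the nested families. -/
def V_TY : Prop :=
  ∀ (p L k : ℕ) (ε : ℤ) (G : Type) [AddCommGroup G] (u0 u1 u2 : G) (w : ℕ → G → ℝ)
    (δ : ℕ → G → ℂ) (lam : ℕ → ℝ), Sys p L k u0 u1 u2 ε w δ → (∀ m, 0 < lam m) →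
    (∀ m ξ : ℕ, ξ < p ^ (lv k m) →
      (∀ g, 0 ≤ cn p k lam w m ξ g ∧ ‖hn p k lam w δ m ξ g‖ ≤ cn p k lam w m ξ g ∧
        cn p k lam w m ξ g < 2 * lam m ∧
        (cn p k lam w m ξ g ≠ 0 → lam m ≤ cn p k lam w m ξ g)) ∧
      Kc p L (lv k m) u0 u1 u2 ε (ξ : ℤ) (hn p k lam w δ m ξ) ∧
      Iv p L (lv k m) u0 u1 u2 (ξ : ℤ) (cn p k lam w m ξ)) ∧
    (∀ m ξ : ℕ, ξ < p ^ (lv k (m + 1)) → ∀ g,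
      (cn p k lam w (m + 1) ξ g ≠ 0 →
        cn p k lam w (m + 1) ξ g = ∑ z ∈ range (p ^ (lv k m - lv k (m + 1))),
          cn p k lam w m (ξ + p ^ (lv k (m + 1)) * z) g ∧
        hn p k lam w δ (m + 1) ξ g = ∑ z ∈ range (p ^ (lv k m - lv k (m + 1))),
          hn p k lam w δ m (ξ + p ^ (lv k (m + 1)) * z) g) ∧
      (cn p k lam w (m + 1) ξ g = 0 → hn p k lam w δ (m + 1) ξ g = 0)) ∧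
    (∀ m m' ξ : ℕ, m ≤ m' → ξ < p ^ (lv k m') → ∀ g,
      cn p k lam w m' ξ g ≤ ∑ z ∈ range (p ^ (lv k m - lv k m')),
        cn p k lam w m (ξ + p ^ (lv k m') * z) g)

/-- TI: pigeonholing. -/
def V_TI : Prop :=
  ∀ (p k I : ℕ) (G : Type) [AddCommGroup G] (w : ℕ → G → ℝ) (δ : ℕ → G → ℂ) (g : G)
    (Λ θ Y : ℝ), 1 < p → 1 ≤ I → 0 < Λ → 0 < Y → 0 ≤ θ →
    (∀ ξ : ℕ, ξ < p ^ k → 0 ≤ w ξ g ∧ ‖δ ξ g‖ ≤ w ξ g) → (p : ℝ) ^ k * Λ ≤ Y / 4 →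
    ∑ ξ ∈ range (p ^ k), w ξ g < 2 ^ I * Λ → Y ≤ ‖∑ ξ ∈ range (p ^ k), δ ξ g‖ →
    θ * ∑ ξ ∈ range (p ^ k), w ξ g ≤ ‖∑ ξ ∈ range (p ^ k), δ ξ g‖ →
      ∀ m : ℕ, ∃ i : ℕ → ℕ, (∀ r, i r < I) ∧ (∀ r, m < r → i r = 0) ∧
        Y / (2 * (2 * (I : ℝ)) ^ (m + 1)) ≤
          ‖∑ ξ ∈ range (p ^ (lv k m)), hn p k (fun r => 2 ^ (i r) * Λ) w δ m ξ g‖ ∧
        θ / 2 ^ (m + 2) * ∑ ξ ∈ range (p ^ (lv k m)), cn p k (fun r => 2 ^ (i r) * Λ) w m ξ g ≤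
          ‖∑ ξ ∈ range (p ^ (lv k m)), hn p k (fun r => 2 ^ (i r) * Λ) w δ m ξ g‖

/-- MB: bound for the local masses. -/
def V_MB : Prop :=
  ∀ (p L k : ℕ) (ε : ℤ) (G : Type) [AddCommGroup G] [Fintype G] (u0 u1 u2 : G)
    (w : ℕ → G → ℝ) (δ : ℕ → G → ℂ) (lam : ℕ → ℝ) (m l c : ℕ), Sys p L k u0 u1 u2 ε w δ →
    (∀ m, 0 < lam m) → 1 ≤ m → lv k (m + 1) ≤ l → l ≤ lv k m → c < p ^ l →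
      ∀ g, AA p L (lv k m) l u0 u1 u2 (c : ℤ)
        (fun g => ∑ z ∈ range (p ^ (lv k m - l)), ‖hn p k lam w δ m (c + p ^ l * z) g‖ ^ 2) g ≤
          4 * ((p : ℝ) ^ (lv k (m - 2) - lv k m) * lam (m - 2)) ^ 2

/-- ST: one step. -/
def V_ST : Prop :=
  ∀ (p L k : ℕ) (ε : ℤ) (G : Type) [AddCommGroup G] [Fintype G] (u0 u1 u2 : G)
    (w : ℕ → G → ℝ) (δ : ℕ → G → ℂ) (lam : ℕ → ℝ) (m ξ : ℕ) (θ : ℝ),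
    Sys p L k u0 u1 u2 ε w δ → (∀ m, 0 < lam m) → 1 ≤ m → 0 < θ → ξ < p ^ (lv k (m + 1)) →
      lam (m + 1) ^ 4 * cnt (Oh p k lam w δ (m + 1) ξ θ) ≤
        (2 / θ) ^ 4 * (64 * ((k : ℝ) + 1) ^ 2) *
          ((p : ℝ) ^ (lv k (m - 2) - lv k m) * lam (m - 2) / lam m) ^ 2 * lam m ^ 4 *
          ∑ z ∈ range (p ^ (lv k m - lv k (m + 1))),
            cnt (Oh p k lam w δ m (ξ + p ^ (lv k (m + 1)) * z) (θ / 2))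

/-- S0: the last step. -/
def V_S0 : Prop :=
  ∀ (p L k : ℕ) (ε : ℤ) (G : Type) [AddCommGroup G] [Fintype G] (u0 u1 u2 : G)
    (w : ℕ → G → ℝ) (δ : ℕ → G → ℂ) (lam : ℕ → ℝ) (ξ : ℕ) (θ : ℝ),
    Sys p L k u0 u1 u2 ε w δ → (∀ m, 0 < lam m) → 0 < θ → ξ < p ^ (lv k 1) →
      lam 1 ^ 4 * cnt (Oh p k lam w δ 1 ξ θ) ≤
        (2 / θ) ^ 4 * (16 * (p : ℝ) ^ 3) * lam 0 ^ 4 * ∑ z ∈ range (p ^ (lv k 0 - lv k 1)),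
          cnt (Oh p k lam w δ 0 (ξ + p ^ (lv k 1) * z) (θ / 2))

/-- IT: iteration. -/
def V_IT : Prop :=
  ∀ (p L k : ℕ) (ε : ℤ) (G : Type) [AddCommGroup G] [Fintype G] (u0 u1 u2 : G)
    (w : ℕ → G → ℝ) (δ : ℕ → G → ℂ) (lam : ℕ → ℝ) (M : ℕ) (θ : ℝ),
    Sys p L k u0 u1 u2 ε w δ → (∀ m, 0 < lam m) → 0 < θ → θ ≤ 1 → lv k M = 0 →
      lam M ^ 8 * cnt (Oh p k lam w δ M 0 θ) ≤
        16 * ((2 ^ M / θ) ^ 4 * (64 * ((k : ℝ) + 1) ^ 2 * (p : ℝ) ^ 3)) ^ M * (p : ℝ) ^ (4 * k) *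
          lam 0 ^ 8 * ∑ ξ ∈ range (p ^ k), cnt (Oh p k lam w δ 0 ξ (θ / 2 ^ M))

/-- CE: the constants (pure analysis). -/
def V_CE : Prop :=
  ∀ p A B : ℕ, 1 < p → ∃ C : ℝ, 0 ≤ C ∧ ∀ (n k M I : ℕ) (θ : ℝ), k ≤ n →
    M ≤ 2 * Nat.log 2 (k + 1) + 4 → I ≤ B * (n + 1) → (((n : ℝ) + 2) ^ A)⁻¹ ≤ θ →
      (I : ℝ) ^ (M + 1) * (4 * (2 * (I : ℝ)) ^ (M + 1)) ^ 8 *
        (16 * ((2 ^ M / (θ / 2 ^ (M + 2))) ^ 4 *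
          (64 * ((k : ℝ) + 1) ^ 2 * (p : ℝ) ^ 3)) ^ M) ≤
        Real.exp (C * Real.log ((n : ℝ) + 2) ^ 2)

/-- C8: the coherent estimate for the light cone. -/
def V_C8 : Prop :=
  ∀ p A : ℕ, ∃ C : ℝ, 0 ≤ C ∧ ∀ (L n k : ℕ) (ε : ℤ) (G : Type) [AddCommGroup G] [Fintype G]
    (u0 u1 u2 : G) (w : ℕ → G → ℝ) (δ : ℕ → G → ℂ) (θ Y : ℝ), Sys p L k u0 u1 u2 ε w δ →
    k ≤ n → 0 < Y → (((n : ℝ) + 2) ^ A)⁻¹ ≤ θ → θ ≤ 1 →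
    (∀ ξ : ℕ, ξ < p ^ k → ∀ g, w ξ g ≤ (p : ℝ) ^ (A * (n + 1)) * Y) →
      cnt {g : G | Y ≤ ‖∑ ξ ∈ range (p ^ k), δ ξ g‖ ∧
          θ * ∑ ξ ∈ range (p ^ k), w ξ g ≤ ‖∑ ξ ∈ range (p ^ k), δ ξ g‖} * Y ^ 8 ≤
        Real.exp (C * Real.log ((n : ℝ) + 2) ^ 2) * (p : ℝ) ^ (4 * k) *
          ∑ ξ ∈ range (p ^ k), ∑ g, w ξ g ^ 8

/-- DK: the slices of the off-diagonal parts are plank functions. -/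
def V_DK : Prop :=
  ∀ (p m a r ξ : ℕ) (w₂ w₃ : ℤ) (G : Type) [AddCommGroup G] (τ : ℤ[X] →+ G)
    (F : ℕ → G → ℂ), 1 < p → 3 * (a + 1) ≤ m → (p : ℤ) ^ m ∣ 2 * w₂ - 1 →
    (p : ℤ) ^ m ∣ 3 * w₃ - 1 →
    (∀ i : ℕ, i < p → Cls p 3 m τ (a + 1) ((ξ + p ^ a * i : ℕ) : ℤ) (F (ξ + p ^ a * i))) →
      Kc p (m - a) a (τ X) (τ (C w₂ * X ^ 2)) (τ (C w₃ * X ^ 3)) (r : ℤ) (ξ : ℤ)
        (slc p (vv p m (a + 1) τ) r (dlt p a F ξ)) ∧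
      Iv p (m - a) a (τ X) (τ (C w₂ * X ^ 2)) (τ (C w₃ * X ^ 3)) (ξ : ℤ)
        (fun g => (p : ℝ) * ∑ i ∈ range p, ‖F (ξ + p ^ a * i) g‖ ^ 2)

/-- CD: the coherent estimate for the off-diagonal parts. -/
def V_CD : Prop :=
  ∀ p A : ℕ, p.Prime → 3 < p → ∃ C : ℝ, 0 ≤ C ∧ ∀ (n m a : ℕ) (G : Type) [AddCommGroup G]
    [Fintype G] (τ : ℤ[X] →+ G) (F : ℕ → G → ℂ) (θ Y : ℝ), a ≤ n → 3 * (a + 1) ≤ m → 0 < Y →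
    (((n : ℝ) + 2) ^ A)⁻¹ ≤ θ → θ ≤ 1 →
    (∀ ξ : ℕ, ξ < p ^ (a + 1) → Cls p 3 m τ (a + 1) (ξ : ℤ) (F ξ)) →
    (∀ ξ : ℕ, ξ < p ^ (a + 1) → ∀ g, ‖F ξ g‖ ^ 2 ≤ (p : ℝ) ^ (A * (n + 1)) * Y) →
      cnt {g : G | Y ≤ ‖∑ ξ ∈ range (p ^ a), dlt p a F ξ g‖ ∧
          θ * ∑ ξ ∈ range (p ^ (a + 1)), ‖F ξ g‖ ^ 2 ≤
            ‖∑ ξ ∈ range (p ^ a), dlt p a F ξ g‖} * Y ^ 8 ≤
        Real.exp (C * Real.log ((n : ℝ) + 2) ^ 2) * (p : ℝ) ^ (4 * a) *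
          ∑ ξ ∈ range (p ^ (a + 1)), ∑ g, ‖F ξ g‖ ^ 16

/-- OB: the bound for `Om` in degree three. -/
def V_OB : Prop :=
  ∀ p : ℕ, p.Prime → 3 < p → ∃ C : ℝ, 0 ≤ C ∧ ∀ (n j : ℕ) (Dst lam : ℝ) (G : Type)
    [AddCommGroup G] [Fintype G] (τ : ℤ[X] →+ G) (f : ℕ → G → ℂ), 1 ≤ j → j < n → 1 ≤ Dst →
    1 ≤ lam → (∀ i : ℕ, i < n → Lev p 3 i Dst) → Fam p 3 n τ f → Bd p n f →
      cnt (Om p n lam f j) * ((p : ℝ) ^ n) ^ 4 ≤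
        Real.exp (C * Real.log ((n : ℝ) + 2) ^ 2) * Dst ^ ((4 : ℝ) / 5) * lam ^ 6 * En p n f

/-- RC: the recursion in degree three. -/
def V_RC : Prop :=
  ∀ p : ℕ, p.Prime → 432 ≤ p → ∃ C : ℝ, 0 ≤ C ∧ ∀ (n : ℕ) (Dst : ℝ), 1 ≤ n → 1 ≤ Dst →
    (∀ i : ℕ, i < n → Lev p 3 i Dst) →
      Lev p 3 n (Dst / 2 + Real.exp (C * Real.log ((n : ℝ) + 2) ^ 2) * Dst ^ ((4 : ℝ) / 5))

/-- SO: level set estimate in degree three. -/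
def V_SO : Prop :=
  ∀ p : ℕ, p.Prime → 432 ≤ p → ∃ C : ℝ, 0 ≤ C ∧ ∀ n : ℕ,
    Lev p 3 n (Real.exp (C * Real.log ((n : ℝ) + 2) ^ 2))

/-- FL: decoupling in degree three. -/
def V_FL : Prop :=
  ∀ p : ℕ, p.Prime → 432 ≤ p → ∃ C : ℝ, 0 ≤ C ∧ ∀ n : ℕ, 1 ≤ n →
    Flat p 3 n (Real.exp (C * Real.log ((n : ℝ) + 1) ^ 2))

/-- AL: the choice of `b` (pure analysis). -/
def V_AL : Prop :=
  ∀ (C₀ : ℕ) (P C₁ γ : ℝ), 1 ≤ P → 0 ≤ C₁ → 0 ≤ γ → γ < 1 → ∃ C₂ : ℝ, 0 ≤ C₂ ∧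
    ∀ n : ℕ, 1 ≤ n → ∃ b : ℕ, 1 ≤ b ∧
      (C₀ : ℝ) * ((n : ℝ) + 1) ^ C₀ * ((C₀ : ℝ) * ((n : ℝ) + 1) ^ C₀ * P ^ (C₀ * b) *
        (Real.exp (C₁ * (b : ℝ) ^ γ * Real.log ((b : ℝ) + 1) ^ 2)) ^ (n / b + 1)) ^ C₀ ≤
        Real.exp (C₂ * (n : ℝ) ^ (1 / (2 - γ)) * Real.log ((n : ℝ) + 1) ^ 2)

/-- AS: decoupling in every degree. -/
def V_AS : Prop :=
  ∀ k p : ℕ, 3 ≤ k → p.Prime → 16 * k ^ 3 ≤ p → ∃ C : ℝ, 0 ≤ C ∧ ∀ n : ℕ, 1 ≤ n →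
    Flat p k n (Real.exp (C * (n : ℝ) ^ (((k : ℝ) - 3) / ((k : ℝ) - 2)) *
      Real.log ((n : ℝ) + 1) ^ 2))

/-- FN: the theorem. -/
def V_FN : Prop :=
  ∀ k : ℕ, 3 ≤ k → ∃ C : ℝ, ∀ N : ℕ, 3 ≤ N →
    ((sols (k * (k + 1) / 2) k N).card : ℝ) ≤ (N : ℝ) ^ (k * (k + 1) / 2) *
      Real.exp (C * Real.log N ^ (((k : ℝ) - 3) / ((k : ℝ) - 2)) *
        Real.log (Real.log N) ^ 2)

end Pool.Agent.H39.VQ
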