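import Pool.Agent.H11.CV.Final
import Pool.Agent.H39.VQ.Targets
import Pool.Agent.H54.VQ.AF
import Pool.Agent.H51.VQ.AL
import Pool.Agent.H1.VQ.AS
import Pool.Agent.H20.VQ.AV
import Pool.Agent.H20.VQ.LV
import Pool.Agent.H20.VQ.N6
import Pool.Agent.H79.VQ.C8
import Pool.Agent.H79.VQ.WE
import Pool.Agent.H89.VQ.CD
import Pool.Agent.H55.VQ.CE
import Pool.Agent.H55.VQ.TI
import Pool.Agent.H48.VQ.DK
import Pool.Agent.H48.VQ.OB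
import Pool.Agent.H7.VQ.FL
import Pool.Agent.H7.VQ.RC
import Pool.Agent.H67.VQ.FN
import Pool.Agent.H17.VQ.FP
import Pool.Agent.H17.VQ.N4
import Pool.Agent.H17.VQ.SQ
import Pool.Agent.H31.VQ.FR
import Pool.Agent.H91.VQ.IT
import Pool.Agent.H91.VQ.KM
import Pool.Agent.H90.VQ.M2
import Pool.Agent.H90.VQ.M3
import Pool.Agent.H97.VQ.MB
import Pool.Agent.H97.VQ.ST
import Pool.Agent.H97.VQ.TY
import Pool.Agent.H65.VQ.N1
import Pool.Agent.H65.VQ.N2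
import Pool.Agent.H46.VQ.N35
import Pool.Agent.H47.VQ.S0
import Pool.Agent.H47.VQ.SO
import Pool.Agent.H58.VQ.FT
import Pool.Agent.H58.VQ.LO
import Pool.Agent.H58.VQ.M1

/-!
# A coherent estimate for the `p`-adic light cone and Vinogradov mean values: assembly (helper39)
-/

set_option autoImplicit false

open Finset Polynomial

namespace Pool.Agent.H39.VQ

open Pool.Agent.H11.CV

theorem v_FT : V_FT := Pool.Agent.H58.VQ.pf_FT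
theorem v_FR : V_FR := Pool.Agent.H31.VQ.pf_FR v_FT t_EX
theorem v_FP : V_FP := Pool.Agent.H17.VQ.pf_FP t_EX v_FT v_FR
theorem v_N1 : V_N1 := Pool.Agent.H65.VQ.pf_N1
theorem v_N2 : V_N2 := Pool.Agent.H65.VQ.pf_N2
theorem v_N3 : V_N3 := Pool.Agent.H46.VQ.n3
theorem v_N4 : V_N4 := Pool.Agent.H17.VQ.pf_N4
theorem v_N5 : V_N5 := Pool.Agent.H46.VQ.n5
theorem v_N6 : V_N6 := Pool.Agent.H20.VQ.pf_N6
theorem v_KM : V_KM := Pool.Agent.H91.VQ.pf_KM t_EX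
theorem v_M1 : V_M1 := Pool.Agent.H58.VQ.pf_M1 v_FT v_FP v_N4
theorem v_M2 : V_M2 := Pool.Agent.H90.VQ.m2 v_FT v_FP v_N1 v_N2
theorem v_M3 : V_M3 := Pool.Agent.H90.VQ.m3 v_FT v_FP v_N1 v_N3
theorem v_SQ : V_SQ := Pool.Agent.H17.VQ.SQ.pf_SQ t_RS v_KM v_M1 v_M2 v_M3
theorem v_AV : V_AV := Pool.Agent.H20.VQ.pf_AV
theorem v_AF : V_AF := Pool.Agent.H54.VQ.pf_AF t_EX v_FT
theorem v_LO : V_LO := Pool.Agent.H58.VQ.pf_LO v_FT v_FP v_N1 v_N6 v_AV v_AF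
theorem v_WE : V_WE := Pool.Agent.H79.VQ.we v_FT v_FP v_N2 v_N5 v_N6 v_AV v_AF
theorem v_LV : V_LV := Pool.Agent.H20.VQ.pf_LV
theorem v_TY : V_TY := Pool.Agent.H97.VQ.pf_TY v_KM
theorem v_TI : V_TI := Pool.Agent.H55.VQ.pf_TI t_RS
theorem v_MB : V_MB := Pool.Agent.H97.VQ.pf_MB v_KM v_AV v_LO v_TY v_LV
theorem v_ST : V_ST := Pool.Agent.H97.VQ.pf_ST v_SQ v_WE v_TY v_MB v_KM v_AV
theorem v_S0 : V_S0 := Pool.Agent.H47.VQ.pf_S0 v_TY v_LV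
theorem v_IT : V_IT := Pool.Agent.H91.VQ.pf_IT v_ST v_S0 v_TY v_LV t_RS
theorem v_CE : V_CE := Pool.Agent.H55.VQ.pf_CE
theorem v_C8 : V_C8 := Pool.Agent.H79.VQ.c8 v_TI v_TY v_IT v_CE v_LV
theorem v_DK : V_DK := Pool.Agent.H48.VQ.pf_DK t_EX t_DL t_SL
theorem v_CD : V_CD := Pool.Agent.H89.VQ.cd v_C8 v_DK t_SL t_DL t_EX t_RS
theorem v_OB : V_OB := Pool.Agent.H48.VQ.pf_OB v_CD t_B2 t_PB t_SQ t_PI t_CC
theorem v_RC : V_RC := Pool.Agent.H7.VQ.rc t_OM t_BN t_NA t_BR v_OB t_RS t_L2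
theorem v_SO : V_SO := Pool.Agent.H47.VQ.pf_SO v_RC t_L0
theorem v_FL : V_FL := Pool.Agent.H7.VQ.fl v_SO t_LF t_L0
theorem v_AL : V_AL := Pool.Agent.H51.VQ.al
theorem v_AS : V_AS := Pool.Agent.H1.VQ.pf_AS t_SO t_LF t_L0 v_FL v_AL
theorem v_FN : V_FN := Pool.Agent.H67.VQ.pf_FN v_AS t_JB

end Pool.Agent.H39.VQ
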